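import Mathlib
import Pool.Agent.Q278.CD.Final

open Set

namespace Pool.Agent.Results.MP_95ad2c_an.DustRemovable

/-- `f` is locally convex on `U`: every point of `U` has an open convex neighbourhood
`V ⊆ U` on which `f` is convex. -/
def LocallyConvexFn {d : ℕ} (f : EuclideanSpace ℝ (Fin d) → ℝ)
    (U : Set (EuclideanSpace ℝ (Fin d))) : Prop :=
  ∀ x ∈ U, ∃ V : Set (EuclideanSpace ℝ (Fin d)),
    IsOpen V ∧ Convex ℝ V ∧ x ∈ V ∧ V ⊆ U ∧ ConvexOn ℝ V f

/-- `A` is `c`-removable: `A` is closed, and every continuous real function on `ℝ^d` that is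
locally convex on the complement of `A` is convex on `ℝ^d`. -/
def CRemovable {d : ℕ} (A : Set (EuclideanSpace ℝ (Fin d))) : Prop :=
  IsClosed A ∧ ∀ f : EuclideanSpace ℝ (Fin d) → ℝ,
    Continuous f → LocallyConvexFn f Aᶜ → ConvexOn ℝ univ f

/-- The Cantor dust `C × C ⊆ ℝ²`, `C` the middle-thirds Cantor set (Mathlib's `cantorSet`). -/
def cantorDust : Set (EuclideanSpace ℝ (Fin 2)) := {p | p 0 ∈ cantorSet ∧ p 1 ∈ cantorSet}

/-- the linear identification -/
def toE : ℝ × ℝ →ₗ[ℝ] EuclideanSpace ℝ (Fin 2) where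
  toFun p := !₂[p.1, p.2]
  map_add' p q := by ext i; fin_cases i <;> simp
  map_smul' c p := by ext i; fin_cases i <;> simp

/-- its inverse -/
def ofE : EuclideanSpace ℝ (Fin 2) →ₗ[ℝ] ℝ × ℝ where
  toFun p := (p 0, p 1)
  map_add' p q := by simp
  map_smul' c p := by simp

lemma toE_ofE (x : EuclideanSpace ℝ (Fin 2)) : toE (ofE x) = x := by
  ext i; fin_cases i <;> rfl

/-- The Cantor dust is `c`-removable: every continuous `f : ℝ² → ℝ` that is locally convex off
`C × C` is convex. -/
theorem result : CRemovable cantorDust := by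
  refine ⟨?_, fun f hf hl => ?_⟩
  · have h0 : Continuous fun p : EuclideanSpace ℝ (Fin 2) => p 0 := by fun_prop
    have h1 : Continuous fun p : EuclideanSpace ℝ (Fin 2) => p 1 := by fun_prop
    exact (isClosed_cantorSet.preimage h0).inter (isClosed_cantorSet.preimage h1)
  · have hc : Continuous toE := toE.continuous_of_finiteDimensional
    have hF : Continuous (f ∘ toE) := hf.comp hc
    have hlF : Pool.Agent.Q278.CD.LocConv (f ∘ toE) Pool.Agent.Q278.CD.Aᶜ := by
      intro p hp
      have hx : toE p ∈ cantorDustᶜ := by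
        intro hcon
        apply hp
        exact ⟨by simpa [toE] using hcon.1, by simpa [toE] using hcon.2⟩
      obtain ⟨V, hVo, hVc, hxV, hVs, hconv⟩ := hl _ hx
      refine ⟨toE ⁻¹' V, hVo.preimage hc, hVc.linear_preimage toE, hxV, ?_,
        hconv.comp_linearMap toE⟩
      intro q hq hcon
      apply hVs hq
      exact ⟨by simpa [toE] using hcon.1, by simpa [toE] using hcon.2⟩
    have key := (Pool.Agent.Q278.CD.convex_main hF hlF).comp_linearMap ofE
    have e : (f ∘ toE) ∘ ofE = f := by
      ext x; simp [toE_ofE]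
    rw [preimage_univ] at key
    have e' : ((f ∘ ⇑toE) ∘ ⇑ofE) = f := e
    rw [e'] at key
    exact key

end Pool.Agent.Results.MP_95ad2c_an.DustRemovable
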